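import Pool.Agent.COS.StmtsT
import Pool.Agent.Helper50_COS.MCH
import Pool.Agent.Helper13_COS.WRA

/-!
# Squad COS, row TIM: tensor isomorphism, the machine part
-/

set_option autoImplicit false

namespace Pool.Agent.COS.H30

open Turing Computability Pool.Agent.UT.Num Pool.Agent.H2XG Pool.Agent.PAR

/-! ### The predicate -/

/-- a product of the sum is nonzero -/
def trm (N n : ℕ) (x y : Word) (i j k a b c : ℕ) : Bool :=
  gt N y i a && gt N y (n + j) (n + b) && gt N y (2 * n + k) (2 * n + c) &&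
    x.getD ((a * n + b) * n + c) false

def c1 (N n : ℕ) (x y : Word) (i j k a b : ℕ) : ℕ :=
  (List.range n).countP fun c => trm N n x y i j k a b c

def c2 (N n : ℕ) (x y : Word) (i j k a : ℕ) : ℕ :=
  ∑ b ∈ Finset.range n, c1 N n x y i j k a b

def c3 (N n : ℕ) (x y : Word) (i j k : ℕ) : ℕ :=
  ∑ a ∈ Finset.range n, c2 N n x y i j k a

def okE (N n : ℕ) (x y : Word) (i j k : ℕ) : Bool :=
  decide (decide (c3 N n x y i j k % 2 = 1) = x.getD (n ^ 3 + (i * n + j) * n + k) false)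

def okB (N n : ℕ) (y : Word) (i j : ℕ) : Bool := decide (blk n i = blk n j) || !gt N y i j

def okB1 (N n : ℕ) (y : Word) (i : ℕ) : Bool := decide (∀ j < N, okB N n y i j = true)

def okE1 (N n : ℕ) (x y : Word) (i j : ℕ) : Bool := decide (∀ k < n, okE N n x y i j k = true)

def okE2 (N n : ℕ) (x y : Word) (i : ℕ) : Bool := decide (∀ j < n, okE1 N n x y i j = true)

def okN (N n : ℕ) (x y : Word) : Bool :=
  decide (x.length = 2 * n ^ 3) && decide (∀ i < N, okB1 N n y i = true) &&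
    decide (∀ i < n, okE2 N n x y i = true)

def timV (x y : Word) : Bool :=
  decide (∃ n < x.length + 1, okN (3 * x.length) n x y = true)

/-! ### The machine -/

section machine

variable {m : ℕ} {N n i j k a b c : (Fin m → List K) → ℕ} {x y : (Fin m → List K) → Word}

theorem trmF (hN : FPN m N) (hn : FPN m n) (hx : FPW m x) (hy : FPW m y) (hi : FPN m i)
    (hj : FPN m j) (hk : FPN m k) (ha : FPN m a) (hb : FPN m b) (hc : FPN m c) :
    FPB m (fun ρ => trm (N ρ) (n ρ) (x ρ) (y ρ) (i ρ) (j ρ) (k ρ) (a ρ) (b ρ) (c ρ)) := by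
  have h2 := FPN.mul (FPN.const 2) hn
  exact FPB.and (FPB.and (FPB.and (H50.gtF hN hy hi ha)
    (H50.gtF hN hy (FPN.add hn hj) (FPN.add hn hb)))
    (H50.gtF hN hy (FPN.add h2 hk) (FPN.add h2 hc)))
    (FPW.getD hx (FPN.add (FPN.mul (FPN.add (FPN.mul ha hn) hb) hn) hc))

theorem c1F (hN : FPN m N) (hn : FPN m n) (hx : FPW m x) (hy : FPW m y) (hi : FPN m i)
    (hj : FPN m j) (hk : FPN m k) (ha : FPN m a) (hb : FPN m b) :
    FPN m (fun ρ => c1 (N ρ) (n ρ) (x ρ) (y ρ) (i ρ) (j ρ) (k ρ) (a ρ) (b ρ)) :=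
  FPN.count hn (b := fun c ρ => trm (N ρ) (n ρ) (x ρ) (y ρ) (i ρ) (j ρ) (k ρ) (a ρ) (b ρ) c)
    (trmF (FPN.weak hN) (FPN.weak hn) (FPW.weak hx) (FPW.weak hy) (FPN.weak hi) (FPN.weak hj)
      (FPN.weak hk) (FPN.weak ha) (FPN.weak hb) FPN.v0)

theorem c2F (hN : FPN m N) (hn : FPN m n) (hx : FPW m x) (hy : FPW m y) (hi : FPN m i)
    (hj : FPN m j) (hk : FPN m k) (ha : FPN m a) :
    FPN m (fun ρ => c2 (N ρ) (n ρ) (x ρ) (y ρ) (i ρ) (j ρ) (k ρ) (a ρ)) :=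
  FPN.sum hn (f := fun b ρ => c1 (N ρ) (n ρ) (x ρ) (y ρ) (i ρ) (j ρ) (k ρ) (a ρ) b)
    (c1F (FPN.weak hN) (FPN.weak hn) (FPW.weak hx) (FPW.weak hy) (FPN.weak hi) (FPN.weak hj)
      (FPN.weak hk) (FPN.weak ha) FPN.v0)

theorem c3F (hN : FPN m N) (hn : FPN m n) (hx : FPW m x) (hy : FPW m y) (hi : FPN m i)
    (hj : FPN m j) (hk : FPN m k) :
    FPN m (fun ρ => c3 (N ρ) (n ρ) (x ρ) (y ρ) (i ρ) (j ρ) (k ρ)) :=
  FPN.sum hn (f := fun a ρ => c2 (N ρ) (n ρ) (x ρ) (y ρ) (i ρ) (j ρ) (k ρ) a)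
    (c2F (FPN.weak hN) (FPN.weak hn) (FPW.weak hx) (FPW.weak hy) (FPN.weak hi) (FPN.weak hj)
      (FPN.weak hk) FPN.v0)

theorem okEF (hN : FPN m N) (hn : FPN m n) (hx : FPW m x) (hy : FPW m y) (hi : FPN m i)
    (hj : FPN m j) (hk : FPN m k) :
    FPB m (fun ρ => okE (N ρ) (n ρ) (x ρ) (y ρ) (i ρ) (j ρ) (k ρ)) := by
  have h1 := FPB.eqN (FPN.mod (c3F hN hn hx hy hi hj hk) (FPN.const 2)) (FPN.const 1)
  have h2 := FPW.getD hx (FPN.add (FPN.add (FPN.pow hn 3)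
    (FPN.mul (FPN.add (FPN.mul hi hn) hj) hn)) hk)
  exact FPB.congr (FPB.or (FPB.and h1 h2) (FPB.and (FPB.not h1) (FPB.not h2))) fun ρ =>
    H50.decEqBool _ _

theorem blkF (hn : FPN m n) (hi : FPN m i) : FPN m (fun ρ => blk (n ρ) (i ρ)) := by
  refine FPN.congr (FPN.ite (FPB.ltN hi hn) (FPN.const 0)
    (FPN.ite (FPB.ltN hi (FPN.mul (FPN.const 2) hn)) (FPN.const 1)
      (FPN.ite (FPB.ltN hi (FPN.mul (FPN.const 3) hn)) (FPN.const 2) (FPN.const 3)))) fun ρ => ?_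
  unfold blk
  simp only [decide_eq_true_eq]

theorem okBF (hN : FPN m N) (hn : FPN m n) (hy : FPW m y) (hi : FPN m i) (hj : FPN m j) :
    FPB m (fun ρ => okB (N ρ) (n ρ) (y ρ) (i ρ) (j ρ)) :=
  FPB.or (FPB.eqN (blkF hn hi) (blkF hn hj)) (FPB.not (H50.gtF hN hy hi hj))

theorem okB1F (hN : FPN m N) (hn : FPN m n) (hy : FPW m y) (hi : FPN m i) :
    FPB m (fun ρ => okB1 (N ρ) (n ρ) (y ρ) (i ρ)) :=
  FPB.all hN (b := fun j ρ => okB (N ρ) (n ρ) (y ρ) (i ρ) j)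
    (okBF (FPN.weak hN) (FPN.weak hn) (FPW.weak hy) (FPN.weak hi) FPN.v0)

theorem okE1F (hN : FPN m N) (hn : FPN m n) (hx : FPW m x) (hy : FPW m y) (hi : FPN m i)
    (hj : FPN m j) : FPB m (fun ρ => okE1 (N ρ) (n ρ) (x ρ) (y ρ) (i ρ) (j ρ)) :=
  FPB.all hn (b := fun k ρ => okE (N ρ) (n ρ) (x ρ) (y ρ) (i ρ) (j ρ) k)
    (okEF (FPN.weak hN) (FPN.weak hn) (FPW.weak hx) (FPW.weak hy) (FPN.weak hi) (FPN.weak hj)
      FPN.v0)

theorem okE2F (hN : FPN m N) (hn : FPN m n) (hx : FPW m x) (hy : FPW m y) (hi : FPN m i) :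
    FPB m (fun ρ => okE2 (N ρ) (n ρ) (x ρ) (y ρ) (i ρ)) :=
  FPB.all hn (b := fun j ρ => okE1 (N ρ) (n ρ) (x ρ) (y ρ) (i ρ) j)
    (okE1F (FPN.weak hN) (FPN.weak hn) (FPW.weak hx) (FPW.weak hy) (FPN.weak hi) FPN.v0)

theorem okNF (hN : FPN m N) (hn : FPN m n) (hx : FPW m x) (hy : FPW m y) :
    FPB m (fun ρ => okN (N ρ) (n ρ) (x ρ) (y ρ)) :=
  FPB.and (FPB.and (FPB.eqN (FPW.len hx) (FPN.mul (FPN.const 2) (FPN.pow hn 3)))
    (FPB.all hN (b := fun i ρ => okB1 (N ρ) (n ρ) (y ρ) i)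
      (okB1F (FPN.weak hN) (FPN.weak hn) (FPW.weak hy) FPN.v0)))
    (FPB.all hn (b := fun i ρ => okE2 (N ρ) (n ρ) (x ρ) (y ρ) i)
      (okE2F (FPN.weak hN) (FPN.weak hn) (FPW.weak hx) (FPW.weak hy) FPN.v0))

theorem timF (hx : FPW m x) (hy : FPW m y) : FPB m (fun ρ => timV (x ρ) (y ρ)) :=
  FPB.exists (FPN.add (FPW.len hx) (FPN.const 1))
    (b := fun n ρ => okN (3 * (x ρ).length) n (x ρ) (y ρ))
    (okNF (FPN.mul (FPN.const 3) (FPW.len (FPW.weak hx))) FPN.v0 (FPW.weak hx) (FPW.weak hy))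

end machine

/-! ### Correctness -/

theorem cast_c1 (N n : ℕ) (x y : Word) (i j k a b : ℕ) : ((c1 N n x y i j k a b : ℕ) : ZMod 2) =
    ∑ c : Fin n, (if trm N n x y i j k a b c then (1 : ZMod 2) else 0) :=
  H13.count_sum _ n

theorem cast_c3 (N n : ℕ) (x y : Word) (i j k : ℕ) : ((c3 N n x y i j k : ℕ) : ZMod 2) =
    ∑ a : Fin n, ∑ b : Fin n, ∑ c : Fin n,
      (if trm N n x y i j k a b c then (1 : ZMod 2) else 0) := by
  unfold c3 c2
  rw [Nat.cast_sum, Finset.sum_range]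
  refine Finset.sum_congr rfl fun a _ => ?_
  rw [Nat.cast_sum, Finset.sum_range]
  exact Finset.sum_congr rfl fun b _ => cast_c1 N n x y i j k a b

theorem en_enc {N : ℕ} (M : Matrix (Fin N) (Fin N) (ZMod 2)) {i j : ℕ} (hi : i < N) (hj : j < N) :
    en M i j = if gt N (enc M) i j then 1 else 0 := by
  rw [H13.gt_enc M hi hj]
  unfold en
  rw [dif_pos ⟨hi, hj⟩]
  rcases H13.z2 (M ⟨i, hi⟩ ⟨j, hj⟩) with h | h
  · rw [h]; rfl
  · rw [h]; rfl

theorem boolmul (p q r s : Bool) : (if p && q && r && s then (1 : ZMod 2) else 0) =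
    (if p then 1 else 0) * (if q then 1 else 0) * (if r then 1 else 0) * (if s then 1 else 0) := by
  rcases p <;> rcases q <;> rcases r <;> rcases s <;> decide

theorem three_le {n l : ℕ} (h : l = 2 * n ^ 3) : 3 * n ≤ 3 * l := by
  have : n ≤ n ^ 3 := Nat.le_self_pow (by norm_num) n
  omega

theorem okE_iff {n : ℕ} {x : Word} (hx : x.length = 2 * n ^ 3)
    (M : Matrix (Fin (3 * x.length)) (Fin (3 * x.length)) (ZMod 2)) (i j k : Fin n) :
    okE (3 * x.length) n x (enc M) i j k = true ↔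
      ∑ a : Fin n, ∑ b : Fin n, ∑ c : Fin n,
        en M i a * en M (n + j) (n + b) * en M (2 * n + k) (2 * n + c) * tens n x 0 a b c =
          tens n x (n ^ 3) i j k := by
  have h3 := three_le hx
  have hs : ∑ a : Fin n, ∑ b : Fin n, ∑ c : Fin n,
        en M i a * en M (n + j) (n + b) * en M (2 * n + k) (2 * n + c) * tens n x 0 a b c =
      ((c3 (3 * x.length) n x (enc M) i j k : ℕ) : ZMod 2) := by
    rw [cast_c3]
    refine Finset.sum_congr rfl fun a _ => Finset.sum_congr rfl fun b _ =>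
      Finset.sum_congr rfl fun c _ => ?_
    have hi := i.2
    have hj := j.2
    have hk := k.2
    have ha := a.2
    have hb := b.2
    have hc := c.2
    unfold trm
    rw [boolmul, en_enc M (by omega) (by omega), en_enc M (by omega) (by omega),
      en_enc M (by omega) (by omega)]
    unfold tens
    rw [zero_add]
  rw [hs]
  unfold okE tens
  rw [decide_eq_true_iff]
  have h5 : (c3 (3 * x.length) n x (enc M) i j k % 2 = 1) ↔
      ((c3 (3 * x.length) n x (enc M) i j k : ℕ) : ZMod 2) = 1 := by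
    rw [ZMod.natCast_eq_one_iff_odd, Nat.odd_iff]
  have h6 : decide (c3 (3 * x.length) n x (enc M) i j k % 2 = 1) =
      decide (((c3 (3 * x.length) n x (enc M) i j k : ℕ) : ZMod 2) = 1) := decide_eq_decide.2 h5
  rw [h6]
  rcases hg : x.getD (n ^ 3 + ((i : ℕ) * n + j) * n + k) false with _ | _
  · rw [decide_eq_false_iff_not, H13.z2_ne]
    simp
  · rw [decide_eq_true_iff]
    simp

theorem okN_iff {n : ℕ} {x : Word}
    (M : Matrix (Fin (3 * x.length)) (Fin (3 * x.length)) (ZMod 2)) :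
    okN (3 * x.length) n x (enc M) = true ↔ x.length = 2 * n ^ 3 ∧
      BlkSol n (3 * x.length) (tens n x 0) (tens n x (n ^ 3)) M := by
  unfold okN okE2 okE1 okB1 BlkSol
  simp only [Bool.and_eq_true, decide_eq_true_iff]
  constructor
  · rintro ⟨⟨h1, h2⟩, h3⟩
    refine ⟨h1, ?_, ?_⟩
    · intro i j hij
      have := h2 i i.2 j j.2
      unfold okB at this
      rw [Bool.or_eq_true, decide_eq_true_iff, Bool.not_eq_true', H13.gt_enc',
        decide_eq_false_iff_not, H13.z2_ne] at this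
      exact this.resolve_left hij
    · intro i j k
      exact (okE_iff h1 M i j k).1 (h3 i i.2 j j.2 k k.2)
  · rintro ⟨h1, h2, h3⟩
    refine ⟨⟨h1, ?_⟩, ?_⟩
    · intro i hi j hj
      unfold okB
      rw [Bool.or_eq_true, decide_eq_true_iff, Bool.not_eq_true', H13.gt_enc M hi hj,
        decide_eq_false_iff_not, H13.z2_ne]
      by_cases h : blk n i = blk n j
      · exact Or.inl h
      · exact Or.inr (h2 ⟨i, hi⟩ ⟨j, hj⟩ h)
    · intro i hi j hj k hk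
      exact (okE_iff h1 M ⟨i, hi⟩ ⟨j, hj⟩ ⟨k, hk⟩).2 (h3 ⟨i, hi⟩ ⟨j, hj⟩ ⟨k, hk⟩)

/-- **TIM** -/
theorem tim : TimStmt := by
  refine ⟨fun z => timV z.1 z.2, polyPair_of' fun _ _ _ hA hB => timF hA hB, ?_⟩
  intro x M
  show timV x (enc M) = true ↔ _
  unfold timV
  rw [decide_eq_true_iff]
  constructor
  · rintro ⟨n, _, h⟩
    exact ⟨n, (okN_iff M).1 h⟩
  · rintro ⟨n, h⟩
    refine ⟨n, ?_, (okN_iff M).2 h⟩
    have : n ≤ n ^ 3 := Nat.le_self_pow (by norm_num) n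
    have := h.1
    omega

end Pool.Agent.COS.H30
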